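import Mathlib

set_option autoImplicit false

open Metric Set TopologicalSpace

namespace Pool.Agent.MP_02cac4_co

variable {E : Type*} [NormedAddCommGroup E] [InnerProductSpace ℝ E] [FiniteDimensional ℝ E]

/-- The symmetric convex bodies, seen as nonempty compact sets. -/
def toNC (K : {K : ConvexBody E // ∀ x ∈ K, -x ∈ K}) : NonemptyCompacts E :=
  ⟨⟨(K.1 : Set E), K.1.isCompact⟩, K.1.nonempty⟩

omit [FiniteDimensional ℝ E] in
theorem isometry_toNC : Isometry (toNC (E := E)) := by
  apply Isometry.of_dist_eq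
  intro K L
  rw [NonemptyCompacts.dist_eq]
  rfl

omit [FiniteDimensional ℝ E] in
theorem isClosed_range_toNC : IsClosed (range (toNC (E := E))) := by
  apply isClosed_of_closure_subset
  intro S hS
  have hfin : ∀ L : NonemptyCompacts E, hausdorffEDist (S : Set E) (L : Set E) ≠ ⊤ := fun L =>
    hausdorffEDist_ne_top_of_nonempty_of_bounded S.nonempty L.nonempty S.isCompact.isBounded
      L.isCompact.isBounded
  have hfin' : ∀ L : NonemptyCompacts E, hausdorffEDist (L : Set E) (S : Set E) ≠ ⊤ := fun L => by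
    rw [hausdorffEDist_comm]; exact hfin L
  have happ : ∀ ε > (0 : ℝ), ∃ K : {K : ConvexBody E // ∀ x ∈ K, -x ∈ K},
      (∀ x ∈ (S : Set E), ∃ y ∈ (K.1 : Set E), dist x y < ε) ∧
      (∀ y ∈ (K.1 : Set E), ∃ x ∈ (S : Set E), dist y x < ε) := by
    intro ε hε
    obtain ⟨L, ⟨K, rfl⟩, hK⟩ := Metric.mem_closure_iff.1 hS ε hε
    rw [NonemptyCompacts.dist_eq] at hK
    refine ⟨K, fun x hx => exists_dist_lt_of_hausdorffDist_lt hx hK (hfin (toNC K)), fun y hy => ?_⟩
    rw [hausdorffDist_comm] at hK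
    exact exists_dist_lt_of_hausdorffDist_lt (s := (toNC K : Set E)) hy hK (hfin' _)
  have hcl : IsClosed (S : Set E) := S.isCompact.isClosed
  have hconv : Convex ℝ (S : Set E) := by
    intro x hx y hy a b ha hb hab
    rw [← hcl.closure_eq, Metric.mem_closure_iff]
    intro ε hε
    obtain ⟨K, h1, h2⟩ := happ (ε / 2) (by positivity)
    obtain ⟨x', hx', hxx⟩ := h1 x hx
    obtain ⟨y', hy', hyy⟩ := h1 y hy
    obtain ⟨z, hz, hzz⟩ := h2 _ (K.1.convex hx' hy' ha hb hab)
    refine ⟨z, hz, ?_⟩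
    have : dist (a • x + b • y) (a • x' + b • y') ≤ ε / 2 := by
      calc dist (a • x + b • y) (a • x' + b • y') ≤ dist (a • x) (a • x') + dist (b • y) (b • y') :=
            dist_add_add_le _ _ _ _
        _ = a * dist x x' + b * dist y y' := by
            rw [dist_smul₀, dist_smul₀, Real.norm_of_nonneg ha, Real.norm_of_nonneg hb]
        _ ≤ a * (ε / 2) + b * (ε / 2) := by gcongr
        _ = ε / 2 := by rw [← add_mul, hab, one_mul]
    calc dist (a • x + b • y) z ≤ dist (a • x + b • y) (a • x' + b • y') + dist (a • x' + b • y') z :=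
          dist_triangle _ _ _
      _ < ε := by linarith
  have hsym : ∀ x ∈ (S : Set E), -x ∈ (S : Set E) := by
    intro x hx
    rw [← hcl.closure_eq, Metric.mem_closure_iff]
    intro ε hε
    obtain ⟨K, h1, h2⟩ := happ (ε / 2) (by positivity)
    obtain ⟨x', hx', hxx⟩ := h1 x hx
    obtain ⟨z, hz, hzz⟩ := h2 _ (K.2 x' hx')
    refine ⟨z, hz, ?_⟩
    calc dist (-x) z ≤ dist (-x) (-x') + dist (-x') z := dist_triangle _ _ _
      _ < ε := by rw [dist_neg_neg]; linarith
  exact ⟨⟨⟨(S : Set E), hconv, S.isCompact, S.nonempty⟩, hsym⟩, rfl⟩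

theorem completeSpace_sym : CompleteSpace {K : ConvexBody E // ∀ x ∈ K, -x ∈ K} := by
  have : CompleteSpace E := FiniteDimensional.complete ℝ E
  exact (isometry_toNC.isUniformInducing.completeSpace isClosed_range_toNC.isComplete)

/-- A residual set of symmetric convex bodies contains bodies squeezed between two balls
of radii close to one. -/
theorem exists_near_ball {G : Set {K : ConvexBody E // ∀ x ∈ K, -x ∈ K}}
    (hG : G ∈ residual {K : ConvexBody E // ∀ x ∈ K, -x ∈ K}) {ε : ℝ} (hε : 0 < ε) :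
    ∃ C ∈ G, ball (0 : E) (1 - ε) ⊆ (C.1 : Set E) ∧ (C.1 : Set E) ⊆ closedBall 0 (1 + ε) := by
  have := completeSpace_sym (E := E)
  have : ProperSpace E := FiniteDimensional.proper ℝ E
  have hd := dense_of_mem_residual hG
  let B : {K : ConvexBody E // ∀ x ∈ K, -x ∈ K} :=
    ⟨⟨closedBall 0 1, convex_closedBall _ _, isCompact_closedBall _ _,
      nonempty_closedBall.2 zero_le_one⟩, fun x hx => by
        have hx' : x ∈ closedBall (0 : E) 1 := hx
        change -x ∈ closedBall (0 : E) 1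
        simpa using hx'⟩
  obtain ⟨C, hCG, hC⟩ := hd.exists_dist_lt B hε
  have hC' : hausdorffDist (closedBall (0 : E) 1) (C.1 : Set E) < ε := hC
  have hfin : hausdorffEDist (closedBall (0 : E) 1) (C.1 : Set E) ≠ ⊤ :=
    ConvexBody.hausdorffEDist_ne_top (K := B.1) (L := C.1)
  refine ⟨C, hCG, ?_, ?_⟩
  · intro x hx
    by_contra hxC
    obtain ⟨f, u, hf, hu⟩ := geometric_hahn_banach_closed_point C.1.convex C.1.isClosed hxC
    have : CompleteSpace E := FiniteDimensional.complete ℝ E
    let v : E := (InnerProductSpace.toDual ℝ E).symm f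
    have hv : ∀ y, f y = inner ℝ v y := fun y => by simp [v]
    have h0 : (0 : E) ∈ (C.1 : Set E) := C.1.zero_mem_of_symmetric C.2
    have hv0 : v ≠ 0 := by
      intro h
      have h1 := hf 0 h0
      rw [hv, h] at h1 hu
      simp at h1 hu
      linarith
    have hvn : 0 < ‖v‖ := norm_pos_iff.2 hv0
    have hw : (‖v‖⁻¹ • v) ∈ closedBall (0 : E) 1 := by
      simp [norm_smul, hvn.ne']
    obtain ⟨y, hy, hyy⟩ := exists_dist_lt_of_hausdorffDist_lt hw hC' hfin
    have h1 := hf y hy
    rw [hv] at h1 hu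
    have h2 : inner ℝ v x ≤ ‖v‖ * ‖x‖ := real_inner_le_norm _ _
    have h3 : inner ℝ v (‖v‖⁻¹ • v - y) ≤ ‖v‖ * ‖‖v‖⁻¹ • v - y‖ := real_inner_le_norm _ _
    rw [inner_sub_right, inner_smul_right, real_inner_self_eq_norm_sq] at h3
    rw [dist_eq_norm] at hyy
    have h4 : ‖v‖⁻¹ * ‖v‖ ^ 2 = ‖v‖ := by field_simp
    have h5 : ‖x‖ < 1 - ε := by simpa using hx
    rw [h4] at h3
    nlinarith
  · intro y hy
    rw [hausdorffDist_comm] at hC'
    rw [hausdorffEDist_comm] at hfin
    obtain ⟨x, hx, hxx⟩ := exists_dist_lt_of_hausdorffDist_lt hy hC' hfin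
    rw [mem_closedBall] at hx ⊢
    linarith [dist_triangle y x 0]

end Pool.Agent.MP_02cac4_co
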