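import Mathlib

set_option autoImplicit false

open Metric Set Finset

namespace Pool.Agent.MP_02cac4_co

abbrev Ed (d : ℕ) := EuclideanSpace ℝ (Fin d)

/-- standard basis vector -/
noncomputable def ee {d : ℕ} (i : Fin d) : Ed d := EuclideanSpace.single i (1 : ℝ)

/-- ordered pairs of distinct indices -/
abbrev Pr (d : ℕ) := {p : Fin d × Fin d // p.1 ≠ p.2}

/-- one minimal vector of the root lattice `D_d` from each pair of opposite ones -/
noncomputable def mv {d : ℕ} (p : Pr d) : Ed d :=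
  if p.1.1 < p.1.2 then ee p.1.1 + ee p.1.2 else ee p.1.1 - ee p.1.2

theorem prod_lower {d : ℕ} (μ : Fin d → ℝ) (σ : ℝ) (hσ : σ ≤ 1 / 2)
    (h : ∀ i, |μ i - 1| ≤ σ) (hs : ∑ i, μ i = d) : 1 - 2 * d * σ ^ 2 ≤ ∏ i, μ i := by
  have hpos : ∀ i, 0 < μ i := fun i => by
    have := (abs_le.1 (h i)).1
    linarith
  have hlog : ∀ i, (μ i - 1) - 2 * σ ^ 2 ≤ Real.log (μ i) := fun i => by
    have h1 := Real.one_sub_inv_le_log_of_pos (hpos i)
    have h2 : (μ i - 1) ^ 2 ≤ σ ^ 2 := by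
      have := sq_abs (μ i - 1)
      have h0 := abs_nonneg (μ i - 1)
      nlinarith [h i]
    have h3 : 1 / 2 ≤ μ i := by
      have := (abs_le.1 (h i)).1
      linarith
    have h4 : (μ i - 1) - 2 * (μ i - 1) ^ 2 ≤ 1 - (μ i)⁻¹ := by
      have hp := hpos i
      have : 1 - (μ i)⁻¹ - ((μ i - 1) - 2 * (μ i - 1) ^ 2) = (μ i - 1) ^ 2 * (2 * μ i - 1) / μ i := by
        field_simp
        ring
      have h5 : 0 ≤ (μ i - 1) ^ 2 * (2 * μ i - 1) / μ i := by
        apply div_nonneg _ hp.le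
        apply mul_nonneg (sq_nonneg _)
        linarith
      linarith
    linarith
  have hsum : -(2 * d * σ ^ 2) ≤ ∑ i, Real.log (μ i) := by
    have := Finset.sum_le_sum (s := Finset.univ) (fun i _ => hlog i)
    simp only [Finset.sum_sub_distrib, hs, Finset.sum_const, Finset.card_univ, Fintype.card_fin,
      nsmul_eq_mul] at this
    linarith
  have hp : ∏ i, μ i = Real.exp (∑ i, Real.log (μ i)) := by
    rw [Real.exp_sum]
    exact Finset.prod_congr rfl fun i _ => (Real.exp_log (hpos i)).symm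
  rw [hp]
  have := Real.add_one_le_exp (∑ i, Real.log (μ i))
  linarith

theorem det_lower {d : ℕ} (T : Ed d →L[ℝ] Ed d) (σ : ℝ) (hσ : σ ≤ 1 / 2)
    (h : ∀ x, |‖T x‖ ^ 2 - ‖x‖ ^ 2| ≤ σ * ‖x‖ ^ 2) (htr : ∑ i, ‖T (ee i)‖ ^ 2 = d) :
    1 - 2 * d * σ ^ 2 ≤ T.det ^ 2 := by
  set L : Ed d →ₗ[ℝ] Ed d := (T : Ed d →ₗ[ℝ] Ed d) with hL
  set U : Ed d →ₗ[ℝ] Ed d := L.adjoint ∘ₗ L with hU
  have hsym : U.IsSymmetric := LinearMap.isSymmetric_adjoint_mul_self L
  have hn : Module.finrank ℝ (Ed d) = d := by simp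
  have hinner : ∀ x, inner ℝ x (U x) = ‖T x‖ ^ 2 := fun x => by
    simp only [hU, LinearMap.comp_apply, LinearMap.adjoint_inner_right]
    rw [real_inner_self_eq_norm_sq]
    rfl
  have hdet : T.det ^ 2 = ∏ i, hsym.eigenvalues hn i := by
    have h1 := hsym.det_eq_prod_eigenvalues hn
    have h2 : L.adjoint.det = L.det := by
      let b := EuclideanSpace.basisFun (Fin d) ℝ
      rw [← LinearMap.det_toMatrix b.toBasis, ← LinearMap.det_toMatrix b.toBasis L,
        LinearMap.toMatrix_adjoint, Matrix.det_conjTranspose]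
      simp
    have h3 : U.det = T.det ^ 2 := by
      rw [hU, LinearMap.det_comp, h2, sq]
    rw [← h3, h1]
    simp
  have hev : ∀ i, hsym.eigenvalues hn i = ‖T (hsym.eigenvectorBasis hn i)‖ ^ 2 := fun i => by
    rw [← hinner, hsym.apply_eigenvectorBasis, inner_smul_right, real_inner_self_eq_norm_sq,
      (hsym.eigenvectorBasis hn).orthonormal.1 i]
    simp
  rw [hdet]
  apply prod_lower _ _ hσ
  · intro i
    have := h (hsym.eigenvectorBasis hn i)
    rw [(hsym.eigenvectorBasis hn).orthonormal.1 i] at this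
    rw [hev]
    simpa using this
  · have h1 := LinearMap.trace_eq_sum_inner U (hsym.eigenvectorBasis hn)
    have h2 := LinearMap.trace_eq_sum_inner U (EuclideanSpace.basisFun (Fin d) ℝ)
    simp only [hinner] at h1 h2
    simp only [hev]
    rw [← h1, h2, ← htr]
    simp [ee]

theorem sum_ee {d : ℕ} (x : Ed d) : ∑ i, x i • ee i = x := by
  ext k
  simp [ee, Finset.sum_apply, Pi.single_apply]

theorem perfect {d : ℕ} (hd : 3 ≤ d) (T : Ed d →L[ℝ] Ed d) (δ : ℝ) (hδ : 0 ≤ δ)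
    (htr : ∑ i, ‖T (ee i)‖ ^ 2 = d) (h : ∀ p : Pr d, 2 - δ ≤ ‖T (mv p)‖ ^ 2) (x : Ed d) :
    |‖T x‖ ^ 2 - ‖x‖ ^ 2| ≤ 2 * d ^ 2 * δ * ‖x‖ ^ 2 := by
  have hd' : (3 : ℝ) ≤ d := by exact_mod_cast hd
  have hplus : ∀ i j : Fin d, i ≠ j → 2 - δ ≤ ‖T (ee i) + T (ee j)‖ ^ 2 := by
    intro i j hij
    rcases lt_or_gt_of_ne hij with h1 | h1
    · have := h ⟨(i, j), hij⟩
      simpa [mv, h1] using this
    · have := h ⟨(j, i), hij.symm⟩
      rw [add_comm]
      simpa [mv, h1] using this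
  have hminus : ∀ i j : Fin d, i ≠ j → 2 - δ ≤ ‖T (ee i) - T (ee j)‖ ^ 2 := by
    intro i j hij
    rcases lt_or_gt_of_ne hij with h1 | h1
    · have := h ⟨(j, i), hij.symm⟩
      rw [norm_sub_rev]
      simpa [mv, h1.not_gt] using this
    · have := h ⟨(i, j), hij⟩
      simpa [mv, h1.not_gt] using this
  set a : Fin d → ℝ := fun i => ‖T (ee i)‖ ^ 2 - 1 with ha
  have hsum : ∑ i, a i = 0 := by
    simp [ha, Finset.sum_sub_distrib, htr]
  have hp : ∀ i j : Fin d, i ≠ j → -δ ≤ a i + a j + 2 * inner ℝ (T (ee i)) (T (ee j)) := by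
    intro i j hij
    have := hplus i j hij
    rw [norm_add_sq_real] at this
    simp only [ha]
    linarith
  have hm : ∀ i j : Fin d, i ≠ j → -δ ≤ a i + a j - 2 * inner ℝ (T (ee i)) (T (ee j)) := by
    intro i j hij
    have := hminus i j hij
    rw [norm_sub_sq_real] at this
    simp only [ha]
    linarith
  have hcard : ∀ i : Fin d, ((Finset.univ.erase i).card : ℝ) = d - 1 := by
    intro i
    rw [Finset.card_erase_of_mem (Finset.mem_univ i), Finset.card_univ, Fintype.card_fin,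
      Nat.cast_sub (by omega)]
    simp
  have hrest : ∀ i : Fin d, ∑ j ∈ Finset.univ.erase i, a j = -a i := by
    intro i
    have := Finset.add_sum_erase Finset.univ a (Finset.mem_univ i)
    linarith
  have hlow : ∀ i, -(2 * δ) ≤ a i := by
    intro i
    have h1 : ∑ j ∈ Finset.univ.erase i, (-δ) ≤ ∑ j ∈ Finset.univ.erase i, (a i + a j) := by
      apply Finset.sum_le_sum
      intro j hj
      have hij : i ≠ j := (Finset.ne_of_mem_erase hj).symm
      linarith [hp i j hij, hm i j hij]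
    rw [Finset.sum_add_distrib, hrest, Finset.sum_const, Finset.sum_const, nsmul_eq_mul,
      nsmul_eq_mul, hcard] at h1
    by_contra hc
    push Not at hc
    nlinarith
  have hup : ∀ i, a i ≤ 2 * (d - 1) * δ := by
    intro i
    have h1 : ∑ j ∈ Finset.univ.erase i, (-(2 * δ)) ≤ ∑ j ∈ Finset.univ.erase i, a j :=
      Finset.sum_le_sum fun j _ => hlow j
    rw [hrest, Finset.sum_const, nsmul_eq_mul, hcard] at h1
    linarith
  have hS : ∀ i j : Fin d,
      |inner ℝ (T (ee i)) (T (ee j)) - (if i = j then 1 else 0)| ≤ 2 * d * δ := by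
    intro i j
    by_cases hij : i = j
    · subst hij
      rw [if_pos rfl, real_inner_self_eq_norm_sq, abs_le]
      have h1 := hlow i
      have h2 := hup i
      simp only [ha] at h1 h2
      constructor <;> nlinarith
    · rw [if_neg hij, sub_zero, abs_le]
      have h1 := hp i j hij
      have h2 := hm i j hij
      have h3 := hup i
      have h4 := hup j
      constructor <;> nlinarith
  have hT : ‖T x‖ ^ 2 = ∑ i, ∑ j, x i * x j * inner ℝ (T (ee i)) (T (ee j)) := by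
    rw [← real_inner_self_eq_norm_sq]
    conv_lhs => rw [← sum_ee x]
    simp only [map_sum, map_smul, sum_inner, inner_sum, inner_smul_left, inner_smul_right,
      Finset.mul_sum]
    refine Finset.sum_congr rfl fun i _ => Finset.sum_congr rfl fun j _ => ?_
    simp only [conj_trivial]
    rw [real_inner_comm]
    ring
  have hx : ‖x‖ ^ 2 = ∑ i, x i ^ 2 := by
    rw [EuclideanSpace.norm_sq_eq]
    simp
  have hx' : ‖x‖ ^ 2 = ∑ i, ∑ j, x i * x j * (if i = j then 1 else 0) := by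
    rw [hx]
    refine Finset.sum_congr rfl fun i _ => ?_
    simp [sq]
  have hdiff : ‖T x‖ ^ 2 - ‖x‖ ^ 2 =
      ∑ i, ∑ j, x i * x j * (inner ℝ (T (ee i)) (T (ee j)) - (if i = j then 1 else 0)) := by
    rw [hT, hx', ← Finset.sum_sub_distrib]
    refine Finset.sum_congr rfl fun i _ => ?_
    rw [← Finset.sum_sub_distrib]
    refine Finset.sum_congr rfl fun j _ => ?_
    ring
  rw [hdiff]
  calc |∑ i, ∑ j, x i * x j * (inner ℝ (T (ee i)) (T (ee j)) - (if i = j then 1 else 0))|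
      ≤ ∑ i, ∑ j, (x i ^ 2 + x j ^ 2) / 2 * (2 * d * δ) := by
        refine (Finset.abs_sum_le_sum_abs _ _).trans (Finset.sum_le_sum fun i _ => ?_)
        refine (Finset.abs_sum_le_sum_abs _ _).trans (Finset.sum_le_sum fun j _ => ?_)
        rw [abs_mul]
        apply mul_le_mul _ (hS i j) (abs_nonneg _) (by positivity)
        rw [abs_le]
        constructor <;> nlinarith [sq_nonneg (x i + x j), sq_nonneg (x i - x j)]
    _ = 2 * d ^ 2 * δ * ‖x‖ ^ 2 := by
        rw [hx]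
        simp only [← Finset.sum_mul, ← Finset.sum_div, Finset.sum_add_distrib, Finset.sum_const,
          Finset.card_univ, Fintype.card_fin, nsmul_eq_mul, ← Finset.mul_sum]
        ring

theorem norm_sq_mv {d : ℕ} (p : Pr d) : ‖mv p‖ ^ 2 = 2 := by
  obtain ⟨⟨i, j⟩, hij⟩ := p
  have h0 : inner ℝ (ee i) (ee j) = 0 := by
    simp only [ee, EuclideanSpace.inner_single_left]
    simp
    exact hij
  have h1 : ∀ k : Fin d, ‖ee k‖ = 1 := fun k => by simp [ee]
  unfold mv
  split_ifs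
  · rw [norm_add_sq_real, h0, h1, h1]; norm_num
  · rw [norm_sub_sq_real, h0, h1, h1]; norm_num

/-- the lattice vector of `D_d` with coefficients `z` -/
noncomputable def lv {d : ℕ} (i₀ : Fin d) (z : Fin d → ℤ) : Ed d :=
  ∑ i, (z i : ℝ) • (ee i + ee i₀)

theorem lv_apply {d : ℕ} (i₀ : Fin d) (z : Fin d → ℤ) (k : Fin d) :
    lv i₀ z k = ((z k + if k = i₀ then ∑ i, z i else 0 : ℤ) : ℝ) := by
  simp only [lv, smul_add, Finset.sum_add_distrib, ← Finset.sum_smul]
  by_cases hk : k = i₀ <;> simp [ee, Finset.sum_apply, Pi.single_apply, hk]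

theorem lv_cases {d : ℕ} (i₀ : Fin d) (z : Fin d → ℤ) (hz : z ≠ 0) :
    (∃ p : Pr d, lv i₀ z = mv p ∨ lv i₀ z = -mv p) ∨ 2 ≤ ‖lv i₀ z‖ := by
  set w : Fin d → ℤ := fun k => z k + if k = i₀ then ∑ i, z i else 0 with hw
  have hlv : ∀ k, lv i₀ z k = (w k : ℝ) := fun k => lv_apply i₀ z k
  have hsum : ∑ k, w k = 2 * ∑ i, z i := by
    simp [hw, Finset.sum_add_distrib]
    ring
  have hnorm : ‖lv i₀ z‖ ^ 2 = ((∑ k, w k ^ 2 : ℤ) : ℝ) := by
    rw [EuclideanSpace.norm_sq_eq]
    simp [hlv]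
  have hw0 : ∃ i, w i ≠ 0 := by
    by_contra hc
    push Not at hc
    have h1 : ∑ i, z i = 0 := by
      have : ∑ k, w k = 0 := by simp [hc]
      omega
    apply hz
    funext k
    have := hc k
    simpa [hw, h1] using this
  have heven : Even (∑ k, w k ^ 2) := by
    have h1 : Even (∑ k, (w k ^ 2 - w k)) := by
      apply Finset.even_sum
      intro k _
      have h0 : w k ^ 2 - w k = w k * (w k - 1) := by ring
      rw [h0]
      exact Int.even_mul_pred_self (w k)
    rw [Finset.sum_sub_distrib, hsum] at h1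
    have h2 : Even (2 * ∑ i, z i) := even_two_mul _
    simpa using h1.add h2
  by_cases hbig : 4 ≤ ∑ k, w k ^ 2
  · right
    have : (4 : ℝ) ≤ ‖lv i₀ z‖ ^ 2 := by
      rw [hnorm]
      exact_mod_cast hbig
    nlinarith [norm_nonneg (lv i₀ z)]
  left
  obtain ⟨i, hi⟩ := hw0
  have e1 := Finset.add_sum_erase Finset.univ (fun k => w k ^ 2) (Finset.mem_univ i)
  have hnn : ∀ s : Finset (Fin d), 0 ≤ ∑ k ∈ s, w k ^ 2 := fun s =>
    Finset.sum_nonneg fun k _ => sq_nonneg _
  have hone : ∀ t : ℤ, t ≠ 0 → t ^ 2 < 4 → t = 1 ∨ t = -1 := by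
    intro t ht h4
    have h1 : t < 2 := by nlinarith
    have h2 : -2 < t := by nlinarith
    omega
  have hi1 : w i = 1 ∨ w i = -1 := hone _ hi (by linarith [hnn (Finset.univ.erase i)])
  have hi2 : w i ^ 2 = 1 := by rcases hi1 with h | h <;> simp [h]
  have hrest : ∑ k ∈ Finset.univ.erase i, w k ^ 2 = 1 := by
    obtain ⟨r, hr⟩ := heven
    have := hnn (Finset.univ.erase i)
    omega
  obtain ⟨j, hj, hj0⟩ : ∃ j ∈ Finset.univ.erase i, w j ≠ 0 := by
    by_contra hc
    push Not at hc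
    rw [Finset.sum_eq_zero (fun k hk => by simp [hc k hk])] at hrest
    exact zero_ne_one hrest
  have e2 := Finset.add_sum_erase _ (fun k => w k ^ 2) hj
  have hj1 : w j = 1 ∨ w j = -1 :=
    hone _ hj0 (by linarith [hnn ((Finset.univ.erase i).erase j)])
  have hj2 : w j ^ 2 = 1 := by rcases hj1 with h | h <;> simp [h]
  have hzero : ∀ k, k ≠ i → k ≠ j → w k = 0 := by
    intro k hki hkj
    have h0 : ∑ k ∈ (Finset.univ.erase i).erase j, w k ^ 2 = 0 := by linarith
    rw [Finset.sum_eq_zero_iff_of_nonneg (fun k _ => sq_nonneg _)] at h0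
    have := h0 k (by simp [hki, hkj])
    simpa using this
  have hij : i ≠ j := (Finset.ne_of_mem_erase hj).symm
  have hx : lv i₀ z = (w i : ℝ) • ee i + (w j : ℝ) • ee j := by
    ext k
    rw [hlv]
    by_cases hki : k = i
    · subst hki
      simp [ee, hij]
    · by_cases hkj : k = j
      · subst hkj
        simp [ee, hki]
      · simp [ee, hki, hkj, hzero k hki hkj]
  rw [hx]
  rcases lt_or_gt_of_ne hij with hlt | hlt
  · rcases hi1 with h1 | h1 <;> rcases hj1 with h2 | h2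
    · exact ⟨⟨(i, j), hij⟩, Or.inl (by simp [mv, hlt, h1, h2])⟩
    · exact ⟨⟨(j, i), hij.symm⟩, Or.inr (by simp [mv, hlt.not_gt, h1, h2, sub_eq_add_neg, add_comm])⟩
    · exact ⟨⟨(j, i), hij.symm⟩, Or.inl (by simp [mv, hlt.not_gt, h1, h2, sub_eq_add_neg, add_comm])⟩
    · exact ⟨⟨(i, j), hij⟩, Or.inr (by simp [mv, hlt, h1, h2, add_comm])⟩
  · rcases hi1 with h1 | h1 <;> rcases hj1 with h2 | h2
    · exact ⟨⟨(j, i), hij.symm⟩, Or.inl (by simp [mv, hlt, h1, h2, add_comm])⟩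
    · exact ⟨⟨(i, j), hij⟩, Or.inl (by simp [mv, hlt.not_gt, h1, h2, sub_eq_add_neg])⟩
    · exact ⟨⟨(i, j), hij⟩, Or.inr (by simp [mv, hlt.not_gt, h1, h2, sub_eq_add_neg, add_comm])⟩
    · exact ⟨⟨(j, i), hij.symm⟩, Or.inr (by simp [mv, hlt, h1, h2])⟩

theorem exists_lv_eq {d : ℕ} (i₀ : Fin d) (p : Pr d) :
    ∃ z : Fin d → ℤ, z ≠ 0 ∧ lv i₀ z = mv p := by
  have hne : ∀ z : Fin d → ℤ, lv i₀ z = mv p → z ≠ 0 := by
    rintro z hz rfl
    have := norm_sq_mv p
    rw [← hz] at this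
    simp [lv] at this
  suffices h : ∃ z : Fin d → ℤ, lv i₀ z = mv p by
    obtain ⟨z, hz⟩ := h
    exact ⟨z, hne z hz, hz⟩
  obtain ⟨⟨i, j⟩, hij⟩ := p
  have hs : ∀ k : Fin d, lv i₀ (Pi.single k 1) = ee k + ee i₀ := by
    intro k
    simp [lv, Pi.single_apply, Finset.sum_add_distrib]
  have hadd : ∀ z z' : Fin d → ℤ, lv i₀ (z + z') = lv i₀ z + lv i₀ z' := by
    intro z z'
    simp only [lv, Pi.add_apply, Int.cast_add, add_smul, Finset.sum_add_distrib]
  have hsub : ∀ z z' : Fin d → ℤ, lv i₀ (z - z') = lv i₀ z - lv i₀ z' := by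
    intro z z'
    simp only [lv, Pi.sub_apply, Int.cast_sub, sub_smul, Finset.sum_sub_distrib]
  by_cases h : i < j
  · refine ⟨Pi.single i 1 + Pi.single j 1 - Pi.single i₀ 1, ?_⟩
    rw [hsub, hadd, hs, hs, hs]
    simp only [mv, h, if_true]
    abel
  · refine ⟨Pi.single i 1 - Pi.single j 1, ?_⟩
    rw [hsub, hs, hs]
    simp only [mv, h, if_false]
    abel

end Pool.Agent.MP_02cac4_co
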