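import Mathlib
import Pool.Agent.MP_02cac4_co.Euclid

set_option autoImplicit false

open Metric Set Finset Filter Topology

namespace Pool.Agent.MP_02cac4_co

/-- A norm-like function squeezed between two multiples of the Euclidean norm. -/
structure NearNorm {d : ℕ} (ε : ℝ) (g : Ed d → ℝ) : Prop where
  add : ∀ x y, g (x + y) ≤ g x + g y
  hom : ∀ c : ℝ, 0 < c → ∀ x, g (c • x) = c * g x
  neg : ∀ x, g (-x) = g x
  cont : Continuous g
  low : ∀ x, (1 - ε) * ‖x‖ ≤ g x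
  up : ∀ x, g x ≤ (1 + ε) * ‖x‖

/-- minimum over the roots -/
noncomputable def mu {d : ℕ} (g : Ed d → ℝ) (T : Ed d →L[ℝ] Ed d) : ℝ :=
  ⨅ p : Pr d, g (T (mv p))

/-- minimum over all nonzero lattice vectors -/
noncomputable def lam {d : ℕ} (g : Ed d → ℝ) (i₀ : Fin d) (T : Ed d →L[ℝ] Ed d) : ℝ :=
  ⨅ z : {z : Fin d → ℤ // z ≠ 0}, g (T (lv i₀ z.1))

/-- almost isometries -/
def Box (d : ℕ) (η : ℝ) : Set (Ed d →L[ℝ] Ed d) :=
  {T | ∀ x, (1 - η) * ‖x‖ ≤ ‖T x‖ ∧ ‖T x‖ ≤ (1 + η) * ‖x‖}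

theorem pr_nonempty {d : ℕ} (hd : 3 ≤ d) : Nonempty (Pr d) :=
  ⟨⟨(⟨0, by omega⟩, ⟨1, by omega⟩), by simp⟩⟩

theorem mu_le {d : ℕ} (g : Ed d → ℝ) (T : Ed d →L[ℝ] Ed d) (p : Pr d) :
    mu g T ≤ g (T (mv p)) :=
  ciInf_le (Set.finite_range _).bddBelow p

theorem norm_mv_le {d : ℕ} (p : Pr d) : ‖mv p‖ ≤ 3 / 2 := by
  have := norm_sq_mv p
  nlinarith [norm_nonneg (mv p)]

theorem one_le_norm_mv {d : ℕ} (p : Pr d) : 1 ≤ ‖mv p‖ := by
  have := norm_sq_mv p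
  nlinarith [norm_nonneg (mv p)]

theorem lam_eq_mu {d : ℕ} (hd : 3 ≤ d) {ε η : ℝ} (hε0 : 0 ≤ ε) (hε : ε ≤ 1 / 20)
    (hη0 : 0 ≤ η) (hη : η ≤ 1 / 20) {g : Ed d → ℝ} (hg : NearNorm ε g) (i₀ : Fin d)
    {T : Ed d →L[ℝ] Ed d} (hT : T ∈ Box d η) : lam g i₀ T = mu g T := by
  have hne := pr_nonempty hd
  have hg0 : ∀ x, 0 ≤ g x := fun x =>
    le_trans (mul_nonneg (by linarith) (norm_nonneg x)) (hg.low x)
  apply le_antisymm
  · apply le_ciInf
    intro p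
    obtain ⟨z, hz, hzp⟩ := exists_lv_eq i₀ p
    have := ciInf_le (f := fun z : {z : Fin d → ℤ // z ≠ 0} => g (T (lv i₀ z.1)))
      ⟨0, by rintro _ ⟨z, rfl⟩; exact hg0 _⟩ ⟨z, hz⟩
    rw [← hzp]
    exact this
  · obtain ⟨p₀⟩ := hne
    obtain ⟨z₀, hz₀, -⟩ := exists_lv_eq i₀ p₀
    have : Nonempty {z : Fin d → ℤ // z ≠ 0} := ⟨⟨z₀, hz₀⟩⟩
    apply le_ciInf
    rintro ⟨z, hz⟩
    rcases lv_cases i₀ z hz with ⟨p, hp | hp⟩ | h2
    · simp only [hp]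
      exact mu_le g T p
    · simp only [hp, map_neg, hg.neg]
      exact mu_le g T p
    · have h1 := mu_le g T p₀
      have h3 := hg.up (T (mv p₀))
      have h4 := (hT (mv p₀)).2
      have h5 := norm_mv_le p₀
      have h6 := hg.low (T (lv i₀ z))
      have h7 := (hT (lv i₀ z)).1
      have h8 : ‖T (mv p₀)‖ ≤ 21 / 20 * (3 / 2) := by nlinarith [norm_nonneg (mv p₀)]
      have h9 : 19 / 20 * 2 ≤ ‖T (lv i₀ z)‖ := by nlinarith
      have h10 : g (T (mv p₀)) ≤ 21 / 20 * (21 / 20 * (3 / 2)) := by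
        nlinarith [norm_nonneg (T (mv p₀))]
      have h11 : 19 / 20 * (19 / 20 * 2) ≤ g (T (lv i₀ z)) := by nlinarith
      simp only
      linarith

theorem isCompact_box (d : ℕ) (η : ℝ) : IsCompact (Box d η) := by
  have : ProperSpace (Ed d →L[ℝ] Ed d) := FiniteDimensional.proper ℝ _
  apply Metric.isCompact_of_isClosed_isBounded
  · have : Box d η = ⋂ x, {T : Ed d →L[ℝ] Ed d | (1 - η) * ‖x‖ ≤ ‖T x‖} ∩
        {T : Ed d →L[ℝ] Ed d | ‖T x‖ ≤ (1 + η) * ‖x‖} := by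
      ext T
      simp [Box]
    rw [this]
    refine isClosed_iInter fun x => IsClosed.inter ?_ ?_
    · exact isClosed_le continuous_const (by fun_prop)
    · exact isClosed_le (by fun_prop) continuous_const
  · rw [isBounded_iff_forall_norm_le]
    refine ⟨|1 + η|, fun T hT => ?_⟩
    refine T.opNorm_le_bound (abs_nonneg _) fun x => (hT x).2.trans ?_
    gcongr
    exact le_abs_self _

theorem det_ne_zero_of_box {d : ℕ} {η : ℝ} (hη : η < 1) {T : Ed d →L[ℝ] Ed d}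
    (hT : T ∈ Box d η) : T.det ≠ 0 := by
  intro h
  have h' : LinearMap.det (T : Ed d →ₗ[ℝ] Ed d) = 0 := h
  rw [LinearMap.det_eq_zero_iff_ker_ne_bot] at h'
  apply h'
  rw [LinearMap.ker_eq_bot']
  intro x hx
  have h1 := (hT x).1
  have h2 : T x = 0 := hx
  rw [h2, norm_zero] at h1
  have h3 : ‖x‖ ≤ 0 := by
    by_contra hc
    push Not at hc
    nlinarith
  exact norm_le_zero_iff.1 h3

theorem continuous_mu {d : ℕ} (hd : 3 ≤ d) {g : Ed d → ℝ} (hg : Continuous g) :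
    Continuous (mu g) := by
  have hne := pr_nonempty hd
  have : mu g = fun T => Finset.univ.inf' Finset.univ_nonempty
      (fun p : Pr d => g (T (mv p))) := by
    funext T
    rw [Finset.inf'_univ_eq_ciInf]
    rfl
  rw [this]
  apply Continuous.finset_inf'_apply (f := fun (p : Pr d) (T : Ed d →L[ℝ] Ed d) => g (T (mv p)))
  intro p _
  exact hg.comp (by fun_prop)

theorem mu_smul {d : ℕ} {ε : ℝ} {g : Ed d → ℝ} (hg : NearNorm ε g) (c : ℝ) (hc : 0 < c)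
    (T : Ed d →L[ℝ] Ed d) : mu g (c • T) = c * mu g T := by
  unfold mu
  rw [Real.mul_iInf_of_nonneg hc.le]
  congr 1
  funext p
  rw [smul_apply, hg.hom c hc]

theorem det_smul' {d : ℕ} (c : ℝ) (T : Ed d →L[ℝ] Ed d) : (c • T).det = c ^ d * T.det := by
  have := LinearMap.det_smul c (T : Ed d →ₗ[ℝ] Ed d)
  rw [finrank_euclideanSpace_fin] at this
  exact this

theorem mu_pos {d : ℕ} (hd : 3 ≤ d) {ε η : ℝ} (hε : ε < 1) (hη : η < 1) {g : Ed d → ℝ}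
    (hg : NearNorm ε g) {T : Ed d →L[ℝ] Ed d} (hT : T ∈ Box d η) : 0 < mu g T := by
  have hne := pr_nonempty hd
  obtain ⟨p, hp⟩ := exists_eq_ciInf_of_finite (f := fun p : Pr d => g (T (mv p)))
  unfold mu
  rw [← hp]
  have h1 := hg.low (T (mv p))
  have h2 := (hT (mv p)).1
  have h3 := one_le_norm_mv p
  have h4 : 0 < ‖T (mv p)‖ := by nlinarith
  nlinarith

theorem box_of_sq {d : ℕ} {σ : ℝ} (h0 : 0 ≤ σ) (h1 : σ ≤ 1) {T : Ed d →L[ℝ] Ed d}
    (hP : ∀ x, |‖T x‖ ^ 2 - ‖x‖ ^ 2| ≤ σ * ‖x‖ ^ 2) : T ∈ Box d σ := by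
  intro x
  have h1 := abs_le.1 (hP x)
  have h2 := norm_nonneg x
  have h3 := sq_nonneg ‖x‖
  constructor
  · apply le_of_sq_le_sq _ (norm_nonneg _)
    rw [mul_pow]
    have : (1 - σ) ^ 2 ≤ 1 - σ := by nlinarith
    nlinarith
  · apply le_of_sq_le_sq _ (by positivity)
    rw [mul_pow]
    have : 1 + σ ≤ (1 + σ) ^ 2 := by nlinarith
    nlinarith

theorem aux_h4 {ε : ℝ} (h : 0 < ε) : 2 * (1 + ε) ^ 2 * (1 - 4 * ε) ≤ 2 * (1 - ε) ^ 2 := by
  nlinarith [sq_nonneg ε, mul_pos h (mul_pos h h)]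

theorem exists_max {d : ℕ} (hd : 3 ≤ d) : ∃ η ε : ℝ, 0 < η ∧ η ≤ 1 / 20 ∧ 0 < ε ∧ ε ≤ 1 / 20 ∧
    ∀ g : Ed d → ℝ, NearNorm ε g → ∃ T ∈ Box d (η / 2), ∀ T' ∈ Box d η,
      mu g T' ^ d / |T'.det| ≤ mu g T ^ d / |T.det| := by
  have hd' : (3 : ℝ) ≤ d := by exact_mod_cast hd
  have hne := pr_nonempty hd
  obtain ⟨C, hC, hC1⟩ : ∃ C : ℝ, C = 2 * d ^ 2 ∧ 1 ≤ C := ⟨_, rfl, by nlinarith⟩
  obtain ⟨η, hη0, hη1, hη⟩ : ∃ η : ℝ, 0 < η ∧ η ≤ 1 / 20 ∧ 64 * d * C ^ 2 * η = 1 := by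
    have h1 : (20 : ℝ) ≤ 64 * d * C ^ 2 := by nlinarith
    refine ⟨1 / (64 * d * C ^ 2), by positivity, ?_, by field_simp⟩
    exact one_div_le_one_div_of_le (by norm_num) h1
  obtain ⟨ε, hε0, hε1, hε⟩ : ∃ ε : ℝ, 0 < ε ∧ ε ≤ 1 / 20 ∧ 32 * d * C * ε = η := by
    have h1 : (1 : ℝ) ≤ 32 * d * C := by nlinarith
    refine ⟨η / (32 * d * C), by positivity, ?_, by field_simp⟩
    exact (div_le_self hη0.le h1).trans hη1
  refine ⟨η, ε, hη0, hη1, hε0, hε1, fun g hg => ?_⟩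
  have hone : (1 : Ed d →L[ℝ] Ed d) ∈ Box d η := by
    intro x
    have := norm_nonneg x
    simp only [one_apply_eq_self]
    constructor <;> nlinarith
  have hcont : ContinuousOn (fun T : Ed d →L[ℝ] Ed d => mu g T ^ d / |T.det|) (Box d η) := by
    apply ContinuousOn.div
    · exact ((continuous_mu hd hg.cont).pow d).continuousOn
    · exact (ContinuousLinearMap.continuous_det.abs).continuousOn
    · intro T hT
      exact abs_ne_zero.2 (det_ne_zero_of_box (by linarith) hT)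
  obtain ⟨T₁, hT₁, hmax⟩ := (isCompact_box d η).exists_isMaxOn ⟨1, hone⟩ hcont
  -- normalise
  have hee : ∀ k : Fin d, ‖ee k‖ = 1 := fun k => by simp [ee]
  obtain ⟨q, hq⟩ : ∃ q : ℝ, q = (∑ i, ‖T₁ (ee i)‖ ^ 2) / d := ⟨_, rfl⟩
  have hq1 : (1 - η) ^ 2 ≤ q := by
    rw [hq, le_div_iff₀ (by linarith)]
    have : ∑ _i : Fin d, (1 - η) ^ 2 ≤ ∑ i, ‖T₁ (ee i)‖ ^ 2 := by
      apply Finset.sum_le_sum
      intro i _
      have := (hT₁ (ee i)).1
      rw [hee, mul_one] at this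
      gcongr
      linarith
    simpa [mul_comm] using this
  have hq2 : q ≤ (1 + η) ^ 2 := by
    rw [hq, div_le_iff₀ (by linarith)]
    have : ∑ i, ‖T₁ (ee i)‖ ^ 2 ≤ ∑ _i : Fin d, (1 + η) ^ 2 := by
      apply Finset.sum_le_sum
      intro i _
      have := (hT₁ (ee i)).2
      rw [hee, mul_one] at this
      gcongr
    simpa [mul_comm] using this
  have hqpos : 0 < q := lt_of_lt_of_le (pow_pos (by linarith) 2) hq1
  obtain ⟨s, hs⟩ : ∃ s : ℝ, s = Real.sqrt q := ⟨_, rfl⟩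
  have hspos : 0 < s := hs ▸ Real.sqrt_pos.2 hqpos
  have hsinv : 0 < s⁻¹ := inv_pos.2 hspos
  have hs2 : s ^ 2 = q := hs ▸ Real.sq_sqrt hqpos.le
  have hsle : s ≤ 1 + η := by
    rw [hs]
    exact Real.sqrt_le_iff.2 ⟨by linarith, hq2⟩
  obtain ⟨T, hT⟩ : ∃ T : Ed d →L[ℝ] Ed d, T = s⁻¹ • T₁ := ⟨_, rfl⟩
  have hTn : ∀ x, ‖T x‖ = s⁻¹ * ‖T₁ x‖ := fun x => by
    rw [hT, smul_apply, norm_smul, Real.norm_of_nonneg (by positivity)]
  have htr : ∑ i, ‖T (ee i)‖ ^ 2 = d := by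
    simp only [hTn, mul_pow, ← Finset.mul_sum, inv_pow, hs2]
    rw [hq]
    have : (∑ i, ‖T₁ (ee i)‖ ^ 2) ≠ 0 := by
      intro h0
      rw [hq, h0] at hqpos
      simp at hqpos
    field_simp
  have hlow : ∀ x, (1 - 2 * η) * ‖x‖ ≤ ‖T x‖ := by
    intro x
    rw [hTn, ← div_eq_inv_mul, le_div_iff₀ hspos]
    have h1 := (hT₁ x).1
    have h2 := norm_nonneg x
    have h3 : (1 - 2 * η) * s ≤ 1 - η := by
      have h4 : (1 - 2 * η) * s ≤ (1 - 2 * η) * (1 + η) := by gcongr; linarith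
      have e : (1 - 2 * η) * (1 + η) = 1 - η - 2 * η ^ 2 := by ring
      have := sq_nonneg η
      linarith
    calc (1 - 2 * η) * ‖x‖ * s = ((1 - 2 * η) * s) * ‖x‖ := by ring
      _ ≤ (1 - η) * ‖x‖ := by gcongr
      _ ≤ _ := h1
  have hF : mu g T ^ d / |T.det| = mu g T₁ ^ d / |T₁.det| := by
    rw [hT, mu_smul hg _ hsinv, det_smul', abs_mul, mul_pow,
      abs_of_pos (by positivity : 0 < s⁻¹ ^ d), mul_div_mul_left _ _ (by positivity)]
  have hFmax : ∀ T' ∈ Box d η, mu g T' ^ d / |T'.det| ≤ mu g T ^ d / |T.det| := by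
    intro T' hT'
    rw [hF]
    exact hmax hT'
  refine ⟨T, ?_, hFmax⟩
  -- the key estimate
  have hdet0 : T.det ≠ 0 := by
    rw [hT, det_smul']
    exact mul_ne_zero (by positivity) (det_ne_zero_of_box (by linarith) hT₁)
  have hkey : ∀ p : Pr d, 2 - 16 * d * ε ≤ ‖T (mv p)‖ ^ 2 := by
    obtain ⟨p₀, hp₀⟩ := Finite.exists_min (fun p : Pr d => ‖T (mv p)‖ ^ 2)
    intro p
    refine le_trans ?_ (hp₀ p)
    by_contra hc
    push Not at hc
    obtain ⟨m, hm⟩ : ∃ m : ℝ, m = ‖T (mv p₀)‖ ^ 2 := ⟨_, rfl⟩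
    rw [← hm] at hc hp₀
    obtain ⟨δ, hδ⟩ : ∃ δ : ℝ, δ = 2 - m := ⟨_, rfl⟩
    have hδ0 : 0 < δ := by
      have : 0 < 16 * d * ε := by positivity
      linarith
    have hδ1 : δ ≤ 8 * η := by
      have h1 := hlow (mv p₀)
      have h2 : ((1 - 2 * η) * ‖mv p₀‖) ^ 2 ≤ m := by
        rw [hm]
        gcongr
        exact mul_nonneg (by linarith) (norm_nonneg _)
      rw [mul_pow, norm_sq_mv] at h2
      have e : (1 - 2 * η) ^ 2 * 2 = 2 - 8 * η + 8 * η ^ 2 := by ring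
      have := sq_nonneg η
      linarith
    have hP := perfect hd T δ hδ0.le htr (fun p => by have := hp₀ p; linarith)
    rw [← hC] at hP
    have hCδ : 2 * d * C ^ 2 * δ ≤ 1 / 4 := by
      have : 2 * d * C ^ 2 * δ ≤ 2 * d * C ^ 2 * (8 * η) := by gcongr
      linarith
    have hCδ' : C * δ ≤ 1 / 2 := by
      have h1 : 1 ≤ 2 * d * C := by
        have : (1 : ℝ) * 1 ≤ (2 * d) * C := by gcongr; linarith
        linarith
      have h2 : 0 ≤ C * δ := by positivity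
      have h3 : 1 * (C * δ) ≤ (2 * d * C) * (C * δ) := by gcongr
      have e : (2 * d * C) * (C * δ) = 2 * d * C ^ 2 * δ := by ring
      linarith
    have hdet := det_lower T (C * δ) hCδ' hP htr
    have hdet' : 1 - δ / 4 ≤ T.det ^ 2 := by
      have e : 2 * d * (C * δ) ^ 2 = (2 * d * C ^ 2 * δ) * δ := by ring
      have : (2 * d * C ^ 2 * δ) * δ ≤ 1 / 4 * δ := by gcongr
      linarith
    -- compare with the identity
    have h1 := hFmax 1 hone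
    have hdet1 : (1 : Ed d →L[ℝ] Ed d).det = 1 := by
      change LinearMap.det (LinearMap.id : Ed d →ₗ[ℝ] Ed d) = 1
      simp
    rw [hdet1, abs_one, div_one, le_div_iff₀ (abs_pos.2 hdet0)] at h1
    have hmu1 : 0 < mu g 1 := mu_pos hd (by linarith) (by linarith) hg hone
    have hmu1' : 2 * (1 - ε) ^ 2 ≤ mu g 1 ^ 2 := by
      obtain ⟨p, hp⟩ := exists_eq_ciInf_of_finite
        (f := fun p : Pr d => g ((1 : Ed d →L[ℝ] Ed d) (mv p)))
      have h2 : mu g 1 = g (mv p) := hp.symm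
      have h3 := hg.low (mv p)
      rw [h2, ← norm_sq_mv p, mul_comm, ← mul_pow]
      gcongr
      exact mul_nonneg (by linarith) (norm_nonneg _)
    have hmuT0 : 0 ≤ mu g T := by
      rw [hT, mu_smul hg _ hsinv]
      exact (mul_pos hsinv (mu_pos hd (by linarith) (by linarith) hg hT₁)).le
    have hmuT : mu g T ^ 2 ≤ m * (1 + ε) ^ 2 := by
      have h2 := (mu_le g T p₀).trans (hg.up _)
      rw [hm, ← mul_pow, mul_comm]
      gcongr
    have h2 : (mu g 1 ^ 2) ^ d * T.det ^ 2 ≤ (mu g T ^ 2) ^ d := by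
      have : (mu g 1 ^ d * |T.det|) ^ 2 ≤ (mu g T ^ d) ^ 2 := by gcongr
      rw [mul_pow, sq_abs, ← pow_mul, ← pow_mul, mul_comm d 2, pow_mul, pow_mul] at this
      exact this
    have hm0 : 0 ≤ m := hm ▸ sq_nonneg _
    have h3 : (2 * (1 - ε) ^ 2) ^ d * T.det ^ 2 ≤ (m * (1 + ε) ^ 2) ^ d := by
      calc (2 * (1 - ε) ^ 2) ^ d * T.det ^ 2 ≤ (mu g 1 ^ 2) ^ d * T.det ^ 2 := by gcongr
        _ ≤ (mu g T ^ 2) ^ d := h2
        _ ≤ (m * (1 + ε) ^ 2) ^ d := by gcongr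
    have h4 : 2 * (1 + ε) ^ 2 * (1 - 4 * ε) ≤ 2 * (1 - ε) ^ 2 := aux_h4 hε0
    have h5 : (2 * (1 + ε) ^ 2) ^ d * ((1 - 4 * ε) ^ d * T.det ^ 2) ≤
        (2 * (1 + ε) ^ 2) ^ d * (m / 2) ^ d := by
      calc (2 * (1 + ε) ^ 2) ^ d * ((1 - 4 * ε) ^ d * T.det ^ 2)
          = (2 * (1 + ε) ^ 2 * (1 - 4 * ε)) ^ d * T.det ^ 2 := by rw [mul_pow _ (1 - 4 * ε)]; ring
        _ ≤ (2 * (1 - ε) ^ 2) ^ d * T.det ^ 2 := by
            gcongr
            exact mul_nonneg (by positivity) (by linarith)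
        _ ≤ (m * (1 + ε) ^ 2) ^ d := h3
        _ = (2 * (1 + ε) ^ 2) ^ d * (m / 2) ^ d := by
            rw [← mul_pow]
            congr 1
            ring
    have h6 : (1 - 4 * ε) ^ d * T.det ^ 2 ≤ (m / 2) ^ d :=
      le_of_mul_le_mul_left h5 (by positivity)
    have h7 : (m / 2) ^ d ≤ m / 2 :=
      pow_le_of_le_one (by positivity) (by linarith) (by omega)
    have h8 : 1 - 4 * d * ε ≤ (1 - 4 * ε) ^ d := by
      have := one_add_mul_le_pow (a := -(4 * ε)) (by linarith) d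
      have e : 1 + -(4 * ε) = 1 - 4 * ε := by ring
      rw [e] at this
      linarith
    have h9 : (1 - 4 * ε) ^ d ≤ 1 := pow_le_one₀ (by linarith) (by linarith)
    have h10 : 0 ≤ (1 - 4 * ε) ^ d := pow_nonneg (by linarith) d
    have h11 : (1 - 4 * ε) ^ d * (1 - δ / 4) ≤ (1 - 4 * ε) ^ d * T.det ^ 2 := by gcongr
    have h12 : (1 - 4 * ε) ^ d * (δ / 4) ≤ 1 * (δ / 4) := by gcongr
    have h13 : (1 - 4 * ε) ^ d * (1 - δ / 4) = (1 - 4 * ε) ^ d - (1 - 4 * ε) ^ d * (δ / 4) := by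
      ring
    linarith
  have hP := perfect hd T (16 * d * ε) (by positivity) htr hkey
  rw [← hC] at hP
  have hσ : C * (16 * d * ε) = η / 2 := by linarith
  rw [hσ] at hP
  exact box_of_sq (by linarith) (by linarith) hP

end Pool.Agent.MP_02cac4_co
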