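import Mathlib

set_option autoImplicit false

open MeasureTheory

namespace Pool.Agent.MP_02cac4_co

/-- The space `𝓒_d` of o-symmetric convex bodies (compact, convex, nonempty interior, `C = -C`)
in Euclidean `d`-space, with the Hausdorff metric inherited from `ConvexBody`. -/
abbrev SymmBody (d : ℕ) :=
  {K : ConvexBody (EuclideanSpace ℝ (Fin d)) //
    (∀ x ∈ K, -x ∈ K) ∧ (interior (K : Set (EuclideanSpace ℝ (Fin d)))).Nonempty}

/-- `δ(C, L) = λ(C, L)^d V(C) / (2^d d(L))` for the lattice `L` with basis `b`. -/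
noncomputable def packingDensity {d : ℕ} (C : Set (EuclideanSpace ℝ (Fin d)))
    (b : Fin d → EuclideanSpace ℝ (Fin d)) : ℝ :=
  (⨅ z : {z : Fin d → ℤ // z ≠ 0}, gauge C (∑ i, (z.1 i : ℝ) • b i)) ^ d
    * (volume C).toReal / (2 ^ d * (volume (parallelepiped b)).toReal)

/-- The lattice with basis `b` is maximum for `δ(C, ·)`. -/
def IsMaximumLattice {d : ℕ} (C : Set (EuclideanSpace ℝ (Fin d)))
    (b : Fin d → EuclideanSpace ℝ (Fin d)) : Prop :=
  ∃ ε > (0 : ℝ), ∀ A : EuclideanSpace ℝ (Fin d) →L[ℝ] EuclideanSpace ℝ (Fin d),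
    LinearMap.trace ℝ _ (A : EuclideanSpace ℝ (Fin d) →ₗ[ℝ] EuclideanSpace ℝ (Fin d)) = 0 →
    ‖A‖ < ε → packingDensity C (fun i => b i + A (b i)) ≤ packingDensity C b

/-- The lattice with basis `b` is ultra-maximum for `δ(C, ·)`. -/
def IsUltraMaximumLattice {d : ℕ} (C : Set (EuclideanSpace ℝ (Fin d)))
    (b : Fin d → EuclideanSpace ℝ (Fin d)) : Prop :=
  ∃ c > (0 : ℝ), ∃ ε > (0 : ℝ), ∀ A : EuclideanSpace ℝ (Fin d) →L[ℝ] EuclideanSpace ℝ (Fin d),
    LinearMap.trace ℝ _ (A : EuclideanSpace ℝ (Fin d) →ₗ[ℝ] EuclideanSpace ℝ (Fin d)) = 0 →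
    ‖A‖ < ε → packingDensity C (fun i => b i + A (b i)) ≤ (1 - c * ‖A‖) * packingDensity C b

end Pool.Agent.MP_02cac4_co
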