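import Mathlib
import Pool.Agent.MP_02cac4_co.Core

set_option autoImplicit false

open Metric Set Finset Filter Topology

namespace Pool.Agent.MP_02cac4_co

theorem box_perturb {d : ℕ} {η : ℝ} (h0 : 0 < η) (h1 : η ≤ 1 / 20) {T A : Ed d →L[ℝ] Ed d}
    (hT : T ∈ Box d (η / 2)) (hA : ‖A‖ < η / 4) : (1 + A) * T ∈ Box d η := by
  intro x
  have e : ((1 + A) * T) x = T x + A (T x) := rfl
  have hA' : ‖A (T x)‖ ≤ η / 4 * ‖T x‖ :=
    (A.le_opNorm _).trans (by gcongr)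
  have h2 := norm_add_le (T x) (A (T x))
  have h3 : ‖T x‖ - ‖A (T x)‖ ≤ ‖T x + A (T x)‖ := by
    have := norm_sub_le (T x + A (T x)) (A (T x))
    rw [add_sub_cancel_right] at this
    linarith
  obtain ⟨h4, h5⟩ := hT x
  have h6 := norm_nonneg x
  rw [e]
  constructor
  · have : (1 - η / 4) * ((1 - η / 2) * ‖x‖) ≤ (1 - η / 4) * ‖T x‖ := by
      gcongr
      linarith
    nlinarith [mul_nonneg (sq_nonneg η) h6, mul_nonneg h0.le h6]
  · have : (1 + η / 4) * ‖T x‖ ≤ (1 + η / 4) * ((1 + η / 2) * ‖x‖) := by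
      gcongr
    nlinarith [mul_nonneg (mul_nonneg h0.le (show 0 ≤ 1 - η by linarith)) h6, mul_nonneg h0.le h6]

theorem box_mono {d : ℕ} {η η' : ℝ} (h : η ≤ η') {T : Ed d →L[ℝ] Ed d} (hT : T ∈ Box d η) :
    T ∈ Box d η' := by
  intro x
  obtain ⟨h1, h2⟩ := hT x
  have := norm_nonneg x
  constructor <;> nlinarith

theorem exists_subgradient {d : ℕ} {ε : ℝ} (hε : ε ≤ 1) {g : Ed d → ℝ} (hg : NearNorm ε g)
    (y : Ed d) (hy : y ≠ 0) : ∃ u : Ed d →ₗ[ℝ] ℝ, u y = g y ∧ ∀ x, u x ≤ g x := by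
  have hg0 : ∀ x, 0 ≤ g x := fun x =>
    le_trans (mul_nonneg (by linarith) (norm_nonneg x)) (hg.low x)
  obtain ⟨u, hu1, hu2⟩ := exists_extension_of_le_sublinear
    (LinearPMap.mkSpanSingleton y (g y) hy) g hg.hom hg.add (by
      rintro ⟨x, hx⟩
      obtain ⟨c, rfl⟩ := Submodule.mem_span_singleton.1 hx
      rw [LinearPMap.mkSpanSingleton'_apply]
      simp only [RingHom.id_apply, smul_eq_mul]
      rcases lt_or_ge 0 c with hc | hc
      · exact (hg.hom c hc y).ge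
      · exact (mul_nonpos_of_nonpos_of_nonneg hc (hg0 y)).trans (hg0 _))
  refine ⟨u, ?_, hu2⟩
  have := hu1 ⟨y, Submodule.mem_span_singleton_self y⟩
  rw [LinearPMap.mkSpanSingleton_apply] at this
  exact this

theorem exists_direction {d : ℕ} (hd : 3 ≤ d) (u : Pr d → (Ed d →ₗ[ℝ] ℝ)) (y : Pr d → Ed d) :
    ∃ A : Ed d →L[ℝ] Ed d, A ≠ 0 ∧ LinearMap.trace ℝ (Ed d) (A : Ed d →ₗ[ℝ] Ed d) = 0 ∧
      ∀ p, u p (A (y p)) = 0 := by
  let Φ : (Ed d →ₗ[ℝ] Ed d) →ₗ[ℝ] (Pr d → ℝ) × ℝ :=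
    LinearMap.prod (LinearMap.pi fun p => (u p) ∘ₗ (LinearMap.applyₗ (y p)))
      (LinearMap.trace ℝ (Ed d))
  have hcard : Fintype.card (Pr d) = d * d - d := by
    have h1 : Fintype.card {p : Fin d × Fin d // p.1 = p.2} = d := by
      have e : {p : Fin d × Fin d // p.1 = p.2} ≃ Fin d :=
        { toFun := fun p => p.1.1
          invFun := fun i => ⟨(i, i), rfl⟩
          left_inv := by rintro ⟨⟨i, j⟩, h⟩; simp only at h; subst h; rfl
          right_inv := fun i => rfl }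
      rw [Fintype.card_congr e, Fintype.card_fin]
    have := Fintype.card_subtype_compl (fun p : Fin d × Fin d => p.1 = p.2)
    rw [h1] at this
    simpa using this
  have hlt : Module.finrank ℝ ((Pr d → ℝ) × ℝ) < Module.finrank ℝ (Ed d →ₗ[ℝ] Ed d) := by
    rw [Module.finrank_prod, Module.finrank_linearMap, Module.finrank_pi, hcard]
    simp only [finrank_euclideanSpace_fin, Module.finrank_self]
    have : d ≤ d * d := Nat.le_mul_self d
    omega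
  have hker := LinearMap.ker_ne_bot_of_finrank_lt (f := Φ) hlt
  obtain ⟨A, hA, hA0⟩ := Submodule.exists_mem_ne_zero_of_ne_bot hker
  rw [LinearMap.mem_ker] at hA
  refine ⟨LinearMap.toContinuousLinearMap A, by simpa using hA0, ?_, fun p => ?_⟩
  · exact congrArg Prod.snd hA
  · exact congrFun (congrArg Prod.fst hA) p

theorem det_expand {d : ℕ} (A : Ed d →L[ℝ] Ed d)
    (hA : LinearMap.trace ℝ (Ed d) (A : Ed d →ₗ[ℝ] Ed d) = 0) :
    ∃ q : ℝ → ℝ, Continuous q ∧ ∀ t : ℝ, (1 + t • A).det = 1 + q t * t ^ 2 := by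
  let b := (EuclideanSpace.basisFun (Fin d) ℝ).toBasis
  let M := LinearMap.toMatrix b b (A : Ed d →ₗ[ℝ] Ed d)
  have hM : M.trace = 0 := by
    rw [← hA, LinearMap.trace_eq_matrix_trace ℝ b]
  refine ⟨fun t => (Matrix.det (1 + (Polynomial.X : Polynomial ℝ) • M.map Polynomial.C)).divX.divX.eval t,
    Polynomial.continuous _, fun t => ?_⟩
  have h1 := Matrix.det_one_add_smul t M
  rw [hM, zero_mul, add_zero] at h1
  rw [← h1]
  change LinearMap.det ((1 : Ed d →ₗ[ℝ] Ed d) + t • (A : Ed d →ₗ[ℝ] Ed d)) = _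
  rw [← LinearMap.det_toMatrix b, map_add, map_smul, LinearMap.toMatrix_one]

theorem det_mul' {d : ℕ} (S T : Ed d →L[ℝ] Ed d) : (S * T).det = S.det * T.det := by
  change LinearMap.det ((S : Ed d →ₗ[ℝ] Ed d) * (T : Ed d →ₗ[ℝ] Ed d)) = _
  rw [map_mul]

theorem core {d : ℕ} (hd : 3 ≤ d) (i₀ : Fin d) : ∃ ε : ℝ, 0 < ε ∧ ε ≤ 1 / 20 ∧
    ∀ g : Ed d → ℝ, NearNorm ε g → ∃ T : Ed d →L[ℝ] Ed d, T.det ≠ 0 ∧
      (∃ r > (0 : ℝ), ∀ A : Ed d →L[ℝ] Ed d, ‖A‖ < r →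
        lam g i₀ ((1 + A) * T) ^ d / |((1 + A) * T).det| ≤ lam g i₀ T ^ d / |T.det|) ∧
      ¬ (∃ c > (0 : ℝ), ∃ r > (0 : ℝ), ∀ A : Ed d →L[ℝ] Ed d,
        LinearMap.trace ℝ (Ed d) (A : Ed d →ₗ[ℝ] Ed d) = 0 → ‖A‖ < r →
        lam g i₀ ((1 + A) * T) ^ d / |((1 + A) * T).det| ≤
          (1 - c * ‖A‖) * (lam g i₀ T ^ d / |T.det|)) := by
  obtain ⟨η, ε, hη0, hη1, hε0, hε1, H⟩ := exists_max hd
  refine ⟨ε, hε0, hε1, fun g hg => ?_⟩
  obtain ⟨T, hT, hmax⟩ := H g hg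
  have hT' : T ∈ Box d η := box_mono (by linarith) hT
  have hdet : T.det ≠ 0 := det_ne_zero_of_box (by linarith) hT'
  have hlam : ∀ S ∈ Box d η, lam g i₀ S = mu g S := fun S hS =>
    lam_eq_mu hd hε0.le hε1 hη0.le hη1 hg i₀ hS
  refine ⟨T, hdet, ⟨η / 4, by positivity, fun A hA => ?_⟩, ?_⟩
  · have hb := box_perturb hη0 hη1 hT hA
    rw [hlam _ hb, hlam _ hT']
    exact hmax _ hb
  rintro ⟨c, hc, r, hr, H⟩
  have hne := pr_nonempty hd
  have hy : ∀ p : Pr d, T (mv p) ≠ 0 := by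
    intro p h0
    have h1 := (hT' (mv p)).1
    have h2 := one_le_norm_mv p
    rw [h0, norm_zero] at h1
    nlinarith
  choose u hu1 hu2 using fun p : Pr d => exists_subgradient (by linarith) hg (T (mv p)) (hy p)
  obtain ⟨A, hA0, hAtr, hAu⟩ := exists_direction hd u (fun p => T (mv p))
  obtain ⟨q, hq, hqd⟩ := det_expand A hAtr
  have hAn : 0 < ‖A‖ := norm_pos_iff.2 hA0
  have hmu : 0 < mu g T := mu_pos hd (by linarith) (by linarith) hg hT'
  have e1 : ∀ s > (0 : ℝ), ∀ᶠ t in 𝓝[>] (0 : ℝ), t * ‖A‖ < s := by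
    intro s hs
    apply Filter.Eventually.filter_mono nhdsWithin_le_nhds
    have : Continuous fun t : ℝ => t * ‖A‖ := by fun_prop
    exact this.continuousAt.eventually_lt continuousAt_const (by simpa using hs)
  have e2 : ∀ᶠ t in 𝓝[>] (0 : ℝ), |q t| * t < c * ‖A‖ := by
    apply Filter.Eventually.filter_mono nhdsWithin_le_nhds
    have : Continuous fun t : ℝ => |q t| * t := by fun_prop
    exact this.continuousAt.eventually_lt continuousAt_const (by simp; positivity)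
  obtain ⟨t, ⟨⟨ht1, ht2⟩, ht3⟩, ht0⟩ :=
    ((((e1 r hr).and (e1 (η / 4) (by positivity))).and e2).and self_mem_nhdsWithin).exists
  have ht0' : 0 < t := ht0
  have hn : ‖t • A‖ = t * ‖A‖ := by rw [norm_smul, Real.norm_of_nonneg ht0'.le]
  have htr : LinearMap.trace ℝ (Ed d) ((t • A : Ed d →L[ℝ] Ed d) : Ed d →ₗ[ℝ] Ed d) = 0 := by
    change LinearMap.trace ℝ (Ed d) (t • (A : Ed d →ₗ[ℝ] Ed d)) = 0
    rw [map_smul, hAtr, smul_zero]
  have hb := box_perturb hη0 hη1 hT (hn ▸ ht2 : ‖t • A‖ < η / 4)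
  have h1 := H (t • A) htr (hn ▸ ht1)
  rw [hlam _ hb, hlam _ hT', hn] at h1
  have h2 : mu g T ≤ mu g ((1 + t • A) * T) := by
    apply le_ciInf
    intro p
    refine (mu_le g T p).trans ?_
    rw [← hu1 p]
    refine le_trans (le_of_eq ?_) (hu2 p _)
    have e : ((1 + t • A) * T) (mv p) = T (mv p) + t • A (T (mv p)) := rfl
    rw [e, map_add, map_smul, hAu p]
    simp
  have hD0 : ((1 + t • A) * T).det ≠ 0 := det_ne_zero_of_box (by linarith) hb
  rw [det_mul', hqd] at h1 hD0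
  obtain ⟨D, hD⟩ : ∃ D, D = |1 + q t * t ^ 2| := ⟨_, rfl⟩
  have hDpos : 0 < D := hD ▸ abs_pos.2 (left_ne_zero_of_mul hD0)
  have hDle : D ≤ 1 + |q t| * t * t := by
    rw [hD]
    refine (abs_add_le _ _).trans (le_of_eq ?_)
    rw [abs_one, abs_mul, abs_of_nonneg (sq_nonneg t)]
    ring
  have hTpos : 0 < |T.det| := abs_pos.2 hdet
  rw [abs_mul, ← hD] at h1
  have h3 : mu g T ^ d / (D * |T.det|) ≤ mu g ((1 + t • A) * T) ^ d / (D * |T.det|) := by
    gcongr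
  have h4 : D⁻¹ * (mu g T ^ d / |T.det|) ≤ (1 - c * (t * ‖A‖)) * (mu g T ^ d / |T.det|) := by
    refine le_trans (le_of_eq ?_) (h3.trans h1)
    field_simp
  have h5 : D⁻¹ ≤ 1 - c * (t * ‖A‖) := le_of_mul_le_mul_right h4 (by positivity)
  have h6 : 0 < 1 - c * (t * ‖A‖) := lt_of_lt_of_le (inv_pos.2 hDpos) h5
  have h7 : 1 ≤ D * (1 - c * (t * ‖A‖)) := by
    have := mul_le_mul_of_nonneg_left h5 hDpos.le
    rwa [mul_inv_cancel₀ hDpos.ne'] at this
  have h8 : D < 1 + c * ‖A‖ * t := by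
    have : |q t| * t * t < c * ‖A‖ * t := by gcongr
    linarith
  have h9 : D * (1 - c * (t * ‖A‖)) < (1 + c * ‖A‖ * t) * (1 - c * (t * ‖A‖)) := by gcongr
  nlinarith [sq_nonneg (c * ‖A‖ * t)]

end Pool.Agent.MP_02cac4_co
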