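import Mathlib
import Pool.Agent.MP_02cac4_co.Local
import Pool.Agent.MP_02cac4_co.Baire

set_option autoImplicit false

open Metric Set MeasureTheory

namespace Pool.Agent.MP_02cac4_co

theorem nearNorm_gauge {d : ℕ} {ε : ℝ} (h0 : 0 < ε) (h1 : ε ≤ 1 / 20) {C : Set (Ed d)}
    (hc : Convex ℝ C) (hs : ∀ x ∈ C, -x ∈ C) (hin : ball (0 : Ed d) (1 - ε / 2) ⊆ C)
    (hout : C ⊆ closedBall 0 (1 + ε / 2)) : NearNorm ε (gauge C) := by
  have hn : C ∈ nhds (0 : Ed d) :=
    Filter.mem_of_superset (ball_mem_nhds 0 (by linarith)) hin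
  have habs : Absorbent ℝ C := absorbent_nhds_zero hn
  refine ⟨gauge_add_le hc habs, fun c hc x => ?_, gauge_neg hs, continuous_gauge hc hn,
    fun x => ?_, fun x => ?_⟩
  · rw [gauge_smul_of_nonneg hc.le, smul_eq_mul]
  · have h2 := le_gauge_of_subset_closedBall habs (by linarith) hout (x := x)
    refine le_trans ?_ h2
    rw [le_div_iff₀ (by linarith)]
    have := norm_nonneg x
    nlinarith [mul_nonneg (sq_nonneg ε) this, mul_nonneg h0.le this]
  · have h2 := mul_gauge_le_norm hin (x := x)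
    have h3 := gauge_nonneg (s := C) x
    have h4 : (1 + ε) * ((1 - ε / 2) * gauge C x) ≤ (1 + ε) * ‖x‖ := by gcongr
    nlinarith [mul_nonneg (mul_nonneg h0.le (show 0 ≤ 1 - ε by linarith)) h3]

/-- the linear map sending the standard basis to a basis of `D_d` -/
noncomputable def T0 {d : ℕ} (i₀ : Fin d) : Ed d →ₗ[ℝ] Ed d :=
  (EuclideanSpace.basisFun (Fin d) ℝ).toBasis.constr ℝ (fun i => ee i + ee i₀)

theorem T0_ee {d : ℕ} (i₀ i : Fin d) : T0 i₀ (ee i) = ee i + ee i₀ := by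
  have := (EuclideanSpace.basisFun (Fin d) ℝ).toBasis.constr_basis ℝ (fun i => ee i + ee i₀) i
  simpa [T0, ee] using this

theorem T0_ker {d : ℕ} (i₀ : Fin d) : LinearMap.ker (T0 i₀) = ⊥ := by
  rw [LinearMap.ker_eq_bot']
  intro x hx
  have h1 : T0 i₀ x = x + (∑ i, x i) • ee i₀ := by
    conv_lhs => rw [← sum_ee x, map_sum]
    simp only [map_smul, T0_ee, smul_add, Finset.sum_add_distrib, sum_ee,
      ← Finset.sum_smul]
  rw [hx] at h1
  have h2 : ∀ k, x k + (∑ i, x i) * (if k = i₀ then 1 else 0) = 0 := by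
    intro k
    have := congrArg (fun v : Ed d => v k) h1
    simpa [ee, Pi.single_apply] using this.symm
  have h3 : ∑ i, x i = 0 := by
    have := Finset.sum_eq_zero (s := Finset.univ) (fun k _ => h2 k)
    simp only [Finset.sum_add_distrib, ← Finset.mul_sum] at this
    simp at this
    linarith
  ext k
  have := h2 k
  rw [h3] at this
  simpa using this

theorem vol_par {d : ℕ} (i₀ : Fin d) (S : Ed d →L[ℝ] Ed d) :
    (volume (parallelepiped (fun i => S (ee i + ee i₀)))).toReal =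
      |S.det| * |LinearMap.det (T0 i₀)| := by
  have h1 : parallelepiped (fun i => S (ee i + ee i₀)) =
      ((S : Ed d →ₗ[ℝ] Ed d) ∘ₗ T0 i₀) '' parallelepiped (EuclideanSpace.basisFun (Fin d) ℝ) := by
    rw [image_parallelepiped]
    congr 1
    funext i
    simp only [Function.comp_apply, LinearMap.comp_apply]
    have : (EuclideanSpace.basisFun (Fin d) ℝ) i = ee i := by simp [ee]
    rw [this, T0_ee]
    rfl
  rw [h1, Measure.addHaar_image_linearMap, OrthonormalBasis.volume_parallelepiped, mul_one,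
    ENNReal.toReal_ofReal (abs_nonneg _), LinearMap.det_comp, abs_mul]

theorem linInd {d : ℕ} (i₀ : Fin d) (S : Ed d →L[ℝ] Ed d) (hS : S.det ≠ 0) :
    LinearIndependent ℝ (fun i => S (ee i + ee i₀)) := by
  have hk : LinearMap.ker ((S : Ed d →ₗ[ℝ] Ed d) ∘ₗ T0 i₀) = ⊥ := by
    by_contra h
    rw [← ne_eq, ← LinearMap.det_eq_zero_iff_ker_ne_bot, LinearMap.det_comp] at h
    rcases mul_eq_zero.1 h with h | h
    · exact hS h
    · rw [LinearMap.det_eq_zero_iff_ker_ne_bot] at h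
      exact h (T0_ker i₀)
  have := (EuclideanSpace.basisFun (Fin d) ℝ).toBasis.linearIndependent.map' _ hk
  have e : (fun i => S (ee i + ee i₀)) = ((S : Ed d →ₗ[ℝ] Ed d) ∘ₗ T0 i₀) ∘
      (EuclideanSpace.basisFun (Fin d) ℝ).toBasis := by
    funext i
    simp only [Function.comp_apply, LinearMap.comp_apply]
    have : (EuclideanSpace.basisFun (Fin d) ℝ).toBasis i = ee i := by simp [ee]
    rw [this, T0_ee]
    rfl
  rw [e]
  exact this

/-- The packing density expression of the frozen statement. -/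
noncomputable def dens {d : ℕ} (C : Set (Ed d)) (b : Fin d → Ed d) : ℝ :=
  (⨅ z : {z : Fin d → ℤ // z ≠ 0}, gauge C (∑ i, (z.1 i : ℝ) • b i)) ^ d
    * (volume C).toReal / (2 ^ d * (volume (parallelepiped b)).toReal)

theorem dens_eq {d : ℕ} (i₀ : Fin d) (C : Set (Ed d)) (S : Ed d →L[ℝ] Ed d) :
    dens C (fun i => S (ee i + ee i₀)) = lam (gauge C) i₀ S ^ d / |S.det| *
      ((volume C).toReal / (2 ^ d * |LinearMap.det (T0 i₀)|)) := by
  unfold dens lam lv
  rw [vol_par]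
  simp only [map_sum, map_smul]
  ring

theorem not_residual {d : ℕ} (hd : 3 ≤ d) :
    {C : {K : ConvexBody (Ed d) // ∀ x ∈ K, -x ∈ K} |
      (interior (C.1 : Set (Ed d))).Nonempty →
      ∀ b : Fin d → Ed d, LinearIndependent ℝ b →
        ((∃ ε > (0 : ℝ), ∀ A : Ed d →L[ℝ] Ed d,
            LinearMap.trace ℝ (Ed d) (A : Ed d →ₗ[ℝ] Ed d) = 0 → ‖A‖ < ε →
            dens (C.1 : Set (Ed d)) (fun i => b i + A (b i)) ≤ dens (C.1 : Set (Ed d)) b) ↔
         (∃ c > (0 : ℝ), ∃ ε > (0 : ℝ), ∀ A : Ed d →L[ℝ] Ed d,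
            LinearMap.trace ℝ (Ed d) (A : Ed d →ₗ[ℝ] Ed d) = 0 → ‖A‖ < ε →
            dens (C.1 : Set (Ed d)) (fun i => b i + A (b i)) ≤
              (1 - c * ‖A‖) * dens (C.1 : Set (Ed d)) b))}
      ∉ residual {K : ConvexBody (Ed d) // ∀ x ∈ K, -x ∈ K} := by
  intro hG
  let i₀ : Fin d := ⟨0, by omega⟩
  obtain ⟨ε, hε0, hε1, H⟩ := core hd i₀
  obtain ⟨C, hCG, hin, hout⟩ := exists_near_ball hG (half_pos hε0)
  have hg := nearNorm_gauge hε0 hε1 C.1.convex C.2 hin hout
  obtain ⟨T, hdet, ⟨r, hr, hmax⟩, hnot⟩ := H _ hg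
  have hint : (interior (C.1 : Set (Ed d))).Nonempty :=
    ⟨0, mem_interior_iff_mem_nhds.2 (Filter.mem_of_superset (ball_mem_nhds 0 (by linarith)) hin)⟩
  have hiff := hCG hint _ (linInd i₀ T hdet)
  have hvol : 0 < (volume (C.1 : Set (Ed d))).toReal := by
    apply ENNReal.toReal_pos
    · exact (Measure.measure_pos_of_nonempty_interior _ hint).ne'
    · exact C.1.isCompact.measure_lt_top.ne
  have hT0 : LinearMap.det (T0 i₀) ≠ 0 := by
    rw [ne_eq, LinearMap.det_eq_zero_iff_ker_ne_bot, not_not]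
    exact T0_ker i₀
  have hκ : 0 < (volume (C.1 : Set (Ed d))).toReal / (2 ^ d * |LinearMap.det (T0 i₀)|) := by
    have := abs_pos.2 hT0
    positivity
  have e : ∀ A : Ed d →L[ℝ] Ed d, (fun i => T (ee i + ee i₀) + A (T (ee i + ee i₀))) =
      fun i => ((1 + A) * T) (ee i + ee i₀) := fun A => rfl
  simp only [e, dens_eq] at hiff
  apply hnot
  obtain ⟨c, hc, s, hs, h⟩ := hiff.1 ⟨r, hr, fun A _ hA => by
    exact mul_le_mul_of_nonneg_right (hmax A hA) hκ.le⟩
  refine ⟨c, hc, s, hs, fun A hA hA' => ?_⟩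
  have := h A hA hA'
  rw [← mul_assoc] at this
  exact le_of_mul_le_mul_right this hκ

end Pool.Agent.MP_02cac4_co
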