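import Mathlib
import Pool.Agent.MP_02cac4_co.Final
import Pool.Agent.MP_02cac4_co.Defs

set_option autoImplicit false

namespace Pool.Agent.MP_02cac4_co

theorem not_meagre {d : ℕ} (hd : 3 ≤ d) :
    ¬ IsMeagre {C : SymmBody d | ∃ b : Fin d → EuclideanSpace ℝ (Fin d), LinearIndependent ℝ b ∧
      IsMaximumLattice (C.1 : Set (EuclideanSpace ℝ (Fin d))) b ∧
      ¬ IsUltraMaximumLattice (C.1 : Set (EuclideanSpace ℝ (Fin d))) b} := by
  intro h
  let f : SymmBody d → {K : ConvexBody (Ed d) // ∀ x ∈ K, -x ∈ K} := fun C => ⟨C.1, C.2.1⟩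
  have hf : Isometry f := fun _ _ => rfl
  have h1 := hf.isUniformInducing.isInducing.isMeagre_image h
  apply not_residual hd
  refine Filter.mem_of_superset h1 ?_
  intro C hC hint b hb
  constructor
  · intro hm
    by_contra hu
    exact hC ⟨⟨C.1, C.2, hint⟩, ⟨b, hb, hm, hu⟩, rfl⟩
  · rintro ⟨c, hc, ε, hε, H⟩
    refine ⟨ε, hε, fun A hA hA' => (H A hA hA').trans ?_⟩
    have h0 : 0 ≤ dens (C.1 : Set (Ed d)) b := by
      unfold dens
      have : 0 ≤ ⨅ z : {z : Fin d → ℤ // z ≠ 0},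
          gauge (C.1 : Set (Ed d)) (∑ i, (z.1 i : ℝ) • b i) :=
        Real.iInf_nonneg fun _ => gauge_nonneg _
      positivity
    have : 0 ≤ c * ‖A‖ := by positivity
    nlinarith

end Pool.Agent.MP_02cac4_co
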